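import Pool.Agent.TwelveSpheres.Main

set_option autoImplicit false

namespace Pool.Agent.TwelveSpheres

theorem same_aux {s t s' t' f : ℝ} (hs : s = 1 ∨ s = -1) (ht : t = f ∨ t = -f)
    (hs' : s' = 1 ∨ s' = -1) (ht' : t' = f ∨ t' = -f) (hf : f ^ 2 = f + 1) (h1 : 1 ≤ f) :
    f ^ 2 ≤ (s * s' + t * t') ^ 2 := by
  have h2 : (s * s' + t * t') ^ 2 = (1 + f ^ 2) ^ 2 ∨ (s * s' + t * t') ^ 2 = (f ^ 2 - 1) ^ 2 := by
    rcases hs with rfl | rfl <;> rcases ht with rfl | rfl <;> rcases hs' with rfl | rfl <;>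
      rcases ht' with rfl | rfl <;> first | (left; ring1) | (right; ring1)
  rcases h2 with h | h
  · rw [h, hf]
    nlinarith
  · rw [h, hf]
    nlinarith

theorem diff_aux {s t f : ℝ} (hs : s = 1 ∨ s = -1) (ht : t = f ∨ t = -f) :
    f ^ 2 ≤ (s * t) ^ 2 := by
  rcases hs with rfl | rfl <;> rcases ht with rfl | rfl <;> exact le_of_eq (by ring)

theorem dot_aux {f : ℝ} (hf : f ^ 2 = f + 1) (h1 : 1 ≤ f) {v w : Fin 3 → ℝ}
    (hv : ∃ s t : ℝ, (s = 1 ∨ s = -1) ∧ (t = f ∨ t = -f) ∧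
      (v = ![0, s, t] ∨ v = ![s, t, 0] ∨ v = ![t, 0, s]))
    (hw : ∃ s t : ℝ, (s = 1 ∨ s = -1) ∧ (t = f ∨ t = -f) ∧
      (w = ![0, s, t] ∨ w = ![s, t, 0] ∨ w = ![t, 0, s])) :
    f ^ 2 ≤ (v ⬝ᵥ w) ^ 2 := by
  obtain ⟨s, t, hs, ht, hv⟩ := hv
  obtain ⟨s', t', hs', ht', hw⟩ := hw
  have e1 := same_aux hs ht hs' ht' hf h1
  have e2 := diff_aux hs ht'
  have e3 := diff_aux hs' ht
  rcases hv with rfl | rfl | rfl <;> rcases hw with rfl | rfl | rfl <;>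
    simp only [dotProduct, Fin.sum_univ_three, Matrix.cons_val_zero, Matrix.cons_val_one,
      Matrix.cons_val] <;>
    first
    | (refine e1.trans (le_of_eq ?_); ring1)
    | (refine e2.trans (le_of_eq ?_); ring1)
    | (refine e3.trans (le_of_eq ?_); ring1)

theorem ip_of_dod {r : ℝ} (hr : 0 < 1 + r) {f : ℝ} {y : Fin 12 → Fin 3 → ℝ}
    {g : Matrix (Fin 3) (Fin 3) ℝ} (hg : g.transpose * g = 1) {v w : Fin 3 → ℝ}
    (h0 : y 0 = ((1 + r) / Real.sqrt (1 + f ^ 2)) • Matrix.mulVec g v)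
    (h1 : y 1 = ((1 + r) / Real.sqrt (1 + f ^ 2)) • Matrix.mulVec g w) :
    ip r y 0 1 = (v ⬝ᵥ w) / (1 + f ^ 2) := by
  have e : Matrix.mulVec g v ⬝ᵥ Matrix.mulVec g w = v ⬝ᵥ w := by
    rw [Matrix.dotProduct_mulVec, Matrix.vecMul_mulVec, hg, Matrix.vecMul_one]
  have hq : 0 < 1 + f ^ 2 := by positivity
  have hsq : Real.sqrt (1 + f ^ 2) ^ 2 = 1 + f ^ 2 := Real.sq_sqrt hq.le
  have hne : Real.sqrt (1 + f ^ 2) ≠ 0 := (Real.sqrt_pos.mpr hq).ne'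
  have hrne : (1 + r) ≠ 0 := hr.ne'
  rw [← e]
  obtain ⟨q, hqq⟩ : ∃ q, q = Real.sqrt (1 + f ^ 2) := ⟨_, rfl⟩
  rw [← hqq] at h0 h1 hsq hne
  unfold ip
  rw [h0, h1, dotProduct, Finset.sum_div, ← hsq]
  refine Finset.sum_congr rfl fun k _ => ?_
  simp only [Pi.smul_apply, smul_eq_mul]
  field_simp

theorem not_dod {r : ℝ} (hr : 0 < 1 + r) {y : Fin 12 → Fin 3 → ℝ} (hy : y ∈ Op r) :
    ¬ ∃ g : Matrix (Fin 3) (Fin 3) ℝ, g.transpose * g = 1 ∧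
      Set.range y =
        {p : Fin 3 → ℝ | ∃ v : Fin 3 → ℝ,
          (∃ s t : ℝ, (s = 1 ∨ s = -1) ∧
            (t = (1 + Real.sqrt 5) / 2 ∨ t = -((1 + Real.sqrt 5) / 2)) ∧
            (v = ![0, s, t] ∨ v = ![s, t, 0] ∨ v = ![t, 0, s])) ∧
          p = ((1 + r) / Real.sqrt (1 + ((1 + Real.sqrt 5) / 2) ^ 2)) •
                Matrix.mulVec g v} := by
  rintro ⟨g, hg, hrange⟩
  have m0 : y 0 ∈ Set.range y := ⟨0, rfl⟩
  have m1 : y 1 ∈ Set.range y := ⟨1, rfl⟩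
  rw [hrange] at m0 m1
  obtain ⟨v, hv, hy0⟩ := m0
  obtain ⟨w, hw, hy1⟩ := m1
  have h5 : Real.sqrt 5 ^ 2 = 5 := Real.sq_sqrt (by norm_num)
  have h5' : 1 ≤ Real.sqrt 5 := by
    rw [Real.one_le_sqrt]; norm_num
  obtain ⟨f, hfdef⟩ : ∃ f, f = (1 + Real.sqrt 5) / 2 := ⟨_, rfl⟩
  rw [← hfdef] at hv hw hy0 hy1
  have hf : f ^ 2 = f + 1 := by
    rw [hfdef]
    linear_combination (1 / 4) * h5
  have h1 : 1 ≤ f := by
    rw [hfdef]
    linarith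
  have e := ip_of_dod hr hg hy0 hy1
  have hd := dot_aux hf h1 hv hw
  have hs := hy.1
  rw [abs_lt] at hs
  have hsB : sB = ((449741451 : ℤ) : ℝ) / 10000000000 := sB_eq
  push_cast at hsB
  have hq : 0 < 1 + f ^ 2 := by positivity
  have hsq : 1 / 5 ≤ ip r y 0 1 ^ 2 := by
    rw [e, div_pow, le_div_iff₀ (by positivity)]
    have : (1 + f ^ 2) ^ 2 = 5 * f ^ 2 := by
      rw [hf]
      linear_combination hf - 0 * h5
    rw [this]
    linarith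
  have hu : ip r y 0 1 < 1 / 10 := by linarith [hs.2]
  have hl : -(1 / 10) < ip r y 0 1 := by linarith [hs.1]
  nlinarith

end Pool.Agent.TwelveSpheres
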