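import Mathlib

set_option autoImplicit false

namespace Pool.Agent.TwelveSpheres

/-- Linearization of a contact inequality written in frame invariants. -/
theorem contact_lin (A B D A' B' D' S c ρ a b d a' b' d' s : ℝ)
    (hρ : 0 ≤ ρ) (hρ1 : ρ ≤ 1 / 1000)
    (ha : |a - A| ≤ ρ) (hb : |b - B| ≤ ρ) (hd : |d - D| ≤ ρ)
    (ha' : |a' - A'| ≤ ρ) (hb' : |b' - B'| ≤ ρ) (hd' : |d' - D'| ≤ ρ)
    (hs : |s - S| ≤ ρ) (hS : |S| ≤ 1 / 20) (hc : |c| ≤ 1 / 2)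
    (hAB : |A| + |B| + |A'| + |B'| ≤ 3)
    (h : a * a' + b * b' - s * (a * b' + a' * b) + d * d' ≤ c * (1 - s ^ 2)) :
    (A' - S * B') * (a - A) + (A - S * B) * (a' - A') + (B' - S * A') * (b - B)
      + (B - S * A) * (b' - B') + D' * (d - D) + D * (d' - D')
      + (-(A * B' + A' * B) + 2 * c * S) * (s - S)
      ≤ c * (1 - S ^ 2) - (A * A' + B * B' - S * (A * B' + A' * B) + D * D') + 7 * ρ ^ 2 := by
  obtain ⟨α, hα⟩ : ∃ α, α = a - A := ⟨_, rfl⟩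
  obtain ⟨β, hβ⟩ : ∃ β, β = b - B := ⟨_, rfl⟩
  obtain ⟨δ, hδ⟩ : ∃ δ, δ = d - D := ⟨_, rfl⟩
  obtain ⟨α', hα'⟩ : ∃ α', α' = a' - A' := ⟨_, rfl⟩
  obtain ⟨β', hβ'⟩ : ∃ β', β' = b' - B' := ⟨_, rfl⟩
  obtain ⟨δ', hδ'⟩ : ∃ δ', δ' = d' - D' := ⟨_, rfl⟩
  obtain ⟨σ, hσ⟩ : ∃ σ, σ = s - S := ⟨_, rfl⟩
  rw [← hα, ← hβ, ← hδ, ← hα', ← hβ', ← hδ', ← hσ]
  rw [← hα] at ha
  rw [← hβ] at hb
  rw [← hδ] at hd
  rw [← hα'] at ha'
  rw [← hβ'] at hb'
  rw [← hδ'] at hd'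
  rw [← hσ] at hs
  have ea : a = A + α := by rw [hα]; ring
  have eb : b = B + β := by rw [hβ]; ring
  have ed : d = D + δ := by rw [hδ]; ring
  have ea' : a' = A' + α' := by rw [hα']; ring
  have eb' : b' = B' + β' := by rw [hβ']; ring
  have ed' : d' = D' + δ' := by rw [hδ']; ring
  have es : s = S + σ := by rw [hσ]; ring
  subst ea eb ed ea' eb' ed' es
  have m : ∀ x y : ℝ, |x| ≤ ρ → |y| ≤ ρ → |x * y| ≤ ρ ^ 2 := by
    intro x y hx hy
    rw [abs_mul, pow_two]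
    exact mul_le_mul hx hy (abs_nonneg _) hρ
  have t1 := m _ _ ha ha'
  have t2 := m _ _ hb hb'
  have t3 := m _ _ hd hd'
  have t4 : |S * (α * β' + α' * β)| ≤ 1 / 20 * (2 * ρ ^ 2) := by
    rw [abs_mul]
    refine mul_le_mul hS ?_ (abs_nonneg _) (by norm_num)
    calc |α * β' + α' * β| ≤ |α * β'| + |α' * β| := abs_add_le _ _
      _ ≤ ρ ^ 2 + ρ ^ 2 := add_le_add (m _ _ ha hb') (m _ _ ha' hb)
      _ = 2 * ρ ^ 2 := by ring
  have t5 : |σ * (A * β' + B' * α + A' * β + B * α')| ≤ 3 * ρ ^ 2 := by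
    have h1 : |A * β' + B' * α + A' * β + B * α'| ≤ 3 * ρ := by
      calc |A * β' + B' * α + A' * β + B * α'|
          ≤ |A * β'| + |B' * α| + |A' * β| + |B * α'| := by
            refine (abs_add_le _ _).trans ?_
            refine add_le_add ((abs_add_le _ _).trans ?_) le_rfl
            exact add_le_add (abs_add_le _ _) le_rfl
        _ ≤ |A| * ρ + |B'| * ρ + |A'| * ρ + |B| * ρ := by
            rw [abs_mul, abs_mul, abs_mul, abs_mul]
            have := mul_le_mul_of_nonneg_left hb' (abs_nonneg A)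
            have := mul_le_mul_of_nonneg_left ha (abs_nonneg B')
            have := mul_le_mul_of_nonneg_left hb (abs_nonneg A')
            have := mul_le_mul_of_nonneg_left ha' (abs_nonneg B)
            linarith
        _ = (|A| + |B| + |A'| + |B'|) * ρ := by ring
        _ ≤ 3 * ρ := mul_le_mul_of_nonneg_right hAB hρ
    rw [abs_mul]
    calc |σ| * |A * β' + B' * α + A' * β + B * α'| ≤ ρ * (3 * ρ) :=
          mul_le_mul hs h1 (abs_nonneg _) hρ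
      _ = 3 * ρ ^ 2 := by ring
  have t6 : |σ * (α * β' + α' * β)| ≤ 1 / 1000 * (2 * ρ ^ 2) := by
    rw [abs_mul]
    refine mul_le_mul (hs.trans hρ1) ?_ (abs_nonneg _) (by norm_num)
    calc |α * β' + α' * β| ≤ |α * β'| + |α' * β| := abs_add_le _ _
      _ ≤ ρ ^ 2 + ρ ^ 2 := add_le_add (m _ _ ha hb') (m _ _ ha' hb)
      _ = 2 * ρ ^ 2 := by ring
  have t7 : |c * σ ^ 2| ≤ 1 / 2 * ρ ^ 2 := by
    rw [abs_mul]
    refine mul_le_mul hc ?_ (abs_nonneg _) (by norm_num)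
    rw [pow_two]; exact m _ _ hs hs
  have u1 := (abs_le.mp t1).1
  have u2 := (abs_le.mp t2).1
  have u3 := (abs_le.mp t3).1
  have u4 := (abs_le.mp t4).2
  have u5 := (abs_le.mp t5).2
  have u6 := (abs_le.mp t6).2
  have u7 := (abs_le.mp t7).1
  have hr : 0 ≤ ρ ^ 2 := sq_nonneg ρ
  linarith

/-- Linearization of the unit norm equation written in frame invariants. -/
theorem norm_lin (A B D S ρ a b d s : ℝ)
    (hρ : 0 ≤ ρ) (hρ1 : ρ ≤ 1 / 1000)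
    (ha : |a - A| ≤ ρ) (hb : |b - B| ≤ ρ) (hd : |d - D| ≤ ρ)
    (hs : |s - S| ≤ ρ) (hS : |S| ≤ 1 / 20) (hAB : |A| + |B| ≤ 14 / 10)
    (h : a ^ 2 + b ^ 2 - 2 * s * a * b + d ^ 2 = 1 - s ^ 2) :
    |(2 * A - 2 * S * B) * (a - A) + (2 * B - 2 * S * A) * (b - B) + 2 * D * (d - D)
      + (-(2 * A * B) + 2 * S) * (s - S)
      - (1 - S ^ 2 - (A ^ 2 + B ^ 2 - 2 * S * A * B + D ^ 2))| ≤ 7 * ρ ^ 2 := by
  obtain ⟨α, hα⟩ : ∃ α, α = a - A := ⟨_, rfl⟩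
  obtain ⟨β, hβ⟩ : ∃ β, β = b - B := ⟨_, rfl⟩
  obtain ⟨δ, hδ⟩ : ∃ δ, δ = d - D := ⟨_, rfl⟩
  obtain ⟨σ, hσ⟩ : ∃ σ, σ = s - S := ⟨_, rfl⟩
  rw [← hα, ← hβ, ← hδ, ← hσ]
  rw [← hα] at ha
  rw [← hβ] at hb
  rw [← hδ] at hd
  rw [← hσ] at hs
  have ea : a = A + α := by rw [hα]; ring
  have eb : b = B + β := by rw [hβ]; ring
  have ed : d = D + δ := by rw [hδ]; ring
  have es : s = S + σ := by rw [hσ]; ring
  subst ea eb ed es
  have m : ∀ x y : ℝ, |x| ≤ ρ → |y| ≤ ρ → |x * y| ≤ ρ ^ 2 := by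
    intro x y hx hy
    rw [abs_mul, pow_two]
    exact mul_le_mul hx hy (abs_nonneg _) hρ
  have t1 := m _ _ ha ha
  have t2 := m _ _ hb hb
  have t3 := m _ _ hd hd
  have t0 := m _ _ hs hs
  have t4 : |S * (α * β)| ≤ 1 / 20 * ρ ^ 2 := by
    rw [abs_mul]
    exact mul_le_mul hS (m _ _ ha hb) (abs_nonneg _) (by norm_num)
  have t5 : |σ * (A * β + B * α)| ≤ 14 / 10 * ρ ^ 2 := by
    have h1 : |A * β + B * α| ≤ 14 / 10 * ρ := by
      calc |A * β + B * α| ≤ |A * β| + |B * α| := abs_add_le _ _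
        _ ≤ |A| * ρ + |B| * ρ := by
            rw [abs_mul, abs_mul]
            have := mul_le_mul_of_nonneg_left hb (abs_nonneg A)
            have := mul_le_mul_of_nonneg_left ha (abs_nonneg B)
            linarith
        _ = (|A| + |B|) * ρ := by ring
        _ ≤ 14 / 10 * ρ := mul_le_mul_of_nonneg_right hAB hρ
    rw [abs_mul]
    calc |σ| * |A * β + B * α| ≤ ρ * (14 / 10 * ρ) :=
          mul_le_mul hs h1 (abs_nonneg _) hρ
      _ = 14 / 10 * ρ ^ 2 := by ring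
  have t6 : |σ * (α * β)| ≤ 1 / 1000 * ρ ^ 2 := by
    rw [abs_mul]
    exact mul_le_mul (hs.trans hρ1) (m _ _ ha hb) (abs_nonneg _) (by norm_num)
  have hr : 0 ≤ ρ ^ 2 := sq_nonneg ρ
  have w0 := abs_le.mp t0
  have w1 := abs_le.mp t1
  have w2 := abs_le.mp t2
  have w3 := abs_le.mp t3
  have w4 := abs_le.mp t4
  have w5 := abs_le.mp t5
  have w6 := abs_le.mp t6
  rw [abs_le]
  constructor
  · linarith [w0.2, w1.2, w2.2, w3.2, w4.1, w5.1, w6.1]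
  · have z0 := sq_nonneg σ
    have z1 := sq_nonneg α
    have z2 := sq_nonneg β
    have z3 := sq_nonneg δ
    linarith [w4.2, w5.2, w6.2]

/-- The frame identity: the Gram product of two vectors in terms of two base vectors. -/
theorem frame_identity (u v w z : Fin 3 → ℝ) :
    ((∑ k, u k ^ 2) * (∑ k, v k ^ 2) - (∑ k, u k * v k) ^ 2) * (∑ k, w k * z k)
      = (∑ k, v k ^ 2) * (∑ k, w k * u k) * (∑ k, z k * u k)
        + (∑ k, u k ^ 2) * (∑ k, w k * v k) * (∑ k, z k * v k)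
        - (∑ k, u k * v k) * ((∑ k, w k * u k) * (∑ k, z k * v k)
          + (∑ k, z k * u k) * (∑ k, w k * v k))
        + (u 0 * (v 1 * w 2 - v 2 * w 1) - u 1 * (v 0 * w 2 - v 2 * w 0)
            + u 2 * (v 0 * w 1 - v 1 * w 0))
          * (u 0 * (v 1 * z 2 - v 2 * z 1) - u 1 * (v 0 * z 2 - v 2 * z 0)
            + u 2 * (v 0 * z 1 - v 1 * z 0)) := by
  simp only [Fin.sum_univ_three]
  ring

end Pool.Agent.TwelveSpheres
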