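import Pool.Agent.TwelveSpheres.Lin
import Pool.Agent.TwelveSpheres.Cert0
import Pool.Agent.TwelveSpheres.Cert1
import Pool.Agent.TwelveSpheres.Cert2
import Pool.Agent.TwelveSpheres.Cert3

set_option autoImplicit false

namespace Pool.Agent.TwelveSpheres

/-- Base value of the inner product of the two frame points. -/
noncomputable def sB : ℝ := (449741451/10000000000)

/-- Base values of the inner products with the first frame point. -/
noncomputable def aB : Fin 10 → ℝ := ![(1248735189/2500000000), (-1947719033/5000000000), (-3344573063/10000000000), (1248735189/2500000000), (509635029/1250000000), (-8622279537/10000000000), (-8622279537/10000000000), (1248735189/2500000000), (-449741451/10000000000), (-1248735189/2500000000)]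

/-- Base values of the inner products with the second frame point. -/
noncomputable def bB : Fin 10 → ℝ := ![(-1248735189/2500000000), (-8622279537/10000000000), (-449741451/10000000000), (1248735189/2500000000), (-8622279537/10000000000), (-1947719033/5000000000), (509635029/1250000000), (1248735189/2500000000), (-3344573063/10000000000), (1248735189/2500000000)]

/-- Base values of the determinants with the two frame points. -/
noncomputable def dB : Fin 10 → ℝ := ![(6903238911/10000000000), (3647017099/10000000000), (9409813807/10000000000), (451313297/625000000), (-2381055963/10000000000), (-3647017099/10000000000), (2381055963/10000000000), (-451313297/625000000), (-9409813807/10000000000), (-6903238911/10000000000)]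

theorem local_rigid (s : ℝ) (a b d : Fin 10 → ℝ)
    (hs : |s - sB| ≤ (3/50000)) (ha : ∀ k, |a k - aB k| ≤ (3/50000))
    (hb : ∀ k, |b k - bB k| ≤ (3/50000)) (hd : ∀ k, |d k - dB k| ≤ (3/50000))
    (hN : ∀ k, a k ^ 2 + b k ^ 2 - 2 * s * a k * b k + d k ^ 2 = 1 - s ^ 2)
    (hC : ∀ k l, k ≠ l → a k * a l + b k * b l - s * (a k * b l + a l * b k) + d k * d l
      ≤ (48778721/97656250) * (1 - s ^ 2))
    (hp : ∀ k, a k ≤ (48778721/97656250)) (hq : ∀ k, b k ≤ (48778721/97656250)) :
    |s - sB| < (3/50000) ∧ (∀ k, |a k - aB k| < (3/50000)) ∧ (∀ k, |b k - bB k| < (3/50000))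
      ∧ (∀ k, |d k - dB k| < (3/50000)) := by
  have hS : |(449741451/10000000000)| ≤ (1 / 20 : ℝ) := abs_le.mpr ⟨by norm_num, by norm_num⟩
  have hcb : |(48778721/97656250)| ≤ (1 / 2 : ℝ) := abs_le.mpr ⟨by norm_num, by norm_num⟩
  have hr0 : (0 : ℝ) ≤ (3/50000) := by norm_num
  have hr1 : ((3/50000) : ℝ) ≤ 1 / 1000 := by norm_num
  have hs0 : |s - (449741451/10000000000)| ≤ (3/50000) := hs
  have ha0 : |a 0 - (1248735189/2500000000)| ≤ (3/50000) := ha 0
  have hb0 : |b 0 - (-1248735189/2500000000)| ≤ (3/50000) := hb 0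
  have hd0 : |d 0 - (6903238911/10000000000)| ≤ (3/50000) := hd 0
  have m0 : |(1248735189/2500000000)| + |(-1248735189/2500000000)| ≤ (14 / 10 : ℝ) := by
    have h1 : |(1248735189/2500000000)| ≤ ((1/2) : ℝ) := abs_le.mpr ⟨by norm_num, by norm_num⟩
    have h2 : |(-1248735189/2500000000)| ≤ ((1/2) : ℝ) := abs_le.mpr ⟨by norm_num, by norm_num⟩
    linarith
  have ha1 : |a 1 - (-1947719033/5000000000)| ≤ (3/50000) := ha 1
  have hb1 : |b 1 - (-8622279537/10000000000)| ≤ (3/50000) := hb 1
  have hd1 : |d 1 - (3647017099/10000000000)| ≤ (3/50000) := hd 1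
  have m1 : |(-1947719033/5000000000)| + |(-8622279537/10000000000)| ≤ (14 / 10 : ℝ) := by
    have h1 : |(-1947719033/5000000000)| ≤ ((39/100) : ℝ) := abs_le.mpr ⟨by norm_num, by norm_num⟩
    have h2 : |(-8622279537/10000000000)| ≤ ((863/1000) : ℝ) := abs_le.mpr ⟨by norm_num, by norm_num⟩
    linarith
  have ha2 : |a 2 - (-3344573063/10000000000)| ≤ (3/50000) := ha 2
  have hb2 : |b 2 - (-449741451/10000000000)| ≤ (3/50000) := hb 2
  have hd2 : |d 2 - (9409813807/10000000000)| ≤ (3/50000) := hd 2
  have m2 : |(-3344573063/10000000000)| + |(-449741451/10000000000)| ≤ (14 / 10 : ℝ) := by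
    have h1 : |(-3344573063/10000000000)| ≤ ((67/200) : ℝ) := abs_le.mpr ⟨by norm_num, by norm_num⟩
    have h2 : |(-449741451/10000000000)| ≤ ((9/200) : ℝ) := abs_le.mpr ⟨by norm_num, by norm_num⟩
    linarith
  have ha3 : |a 3 - (1248735189/2500000000)| ≤ (3/50000) := ha 3
  have hb3 : |b 3 - (1248735189/2500000000)| ≤ (3/50000) := hb 3
  have hd3 : |d 3 - (451313297/625000000)| ≤ (3/50000) := hd 3
  have m3 : |(1248735189/2500000000)| + |(1248735189/2500000000)| ≤ (14 / 10 : ℝ) := by
    have h1 : |(1248735189/2500000000)| ≤ ((1/2) : ℝ) := abs_le.mpr ⟨by norm_num, by norm_num⟩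
    have h2 : |(1248735189/2500000000)| ≤ ((1/2) : ℝ) := abs_le.mpr ⟨by norm_num, by norm_num⟩
    linarith
  have ha4 : |a 4 - (509635029/1250000000)| ≤ (3/50000) := ha 4
  have hb4 : |b 4 - (-8622279537/10000000000)| ≤ (3/50000) := hb 4
  have hd4 : |d 4 - (-2381055963/10000000000)| ≤ (3/50000) := hd 4
  have m4 : |(509635029/1250000000)| + |(-8622279537/10000000000)| ≤ (14 / 10 : ℝ) := by
    have h1 : |(509635029/1250000000)| ≤ ((51/125) : ℝ) := abs_le.mpr ⟨by norm_num, by norm_num⟩
    have h2 : |(-8622279537/10000000000)| ≤ ((863/1000) : ℝ) := abs_le.mpr ⟨by norm_num, by norm_num⟩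
    linarith
  have ha5 : |a 5 - (-8622279537/10000000000)| ≤ (3/50000) := ha 5
  have hb5 : |b 5 - (-1947719033/5000000000)| ≤ (3/50000) := hb 5
  have hd5 : |d 5 - (-3647017099/10000000000)| ≤ (3/50000) := hd 5
  have m5 : |(-8622279537/10000000000)| + |(-1947719033/5000000000)| ≤ (14 / 10 : ℝ) := by
    have h1 : |(-8622279537/10000000000)| ≤ ((863/1000) : ℝ) := abs_le.mpr ⟨by norm_num, by norm_num⟩
    have h2 : |(-1947719033/5000000000)| ≤ ((39/100) : ℝ) := abs_le.mpr ⟨by norm_num, by norm_num⟩
    linarith
  have ha6 : |a 6 - (-8622279537/10000000000)| ≤ (3/50000) := ha 6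
  have hb6 : |b 6 - (509635029/1250000000)| ≤ (3/50000) := hb 6
  have hd6 : |d 6 - (2381055963/10000000000)| ≤ (3/50000) := hd 6
  have m6 : |(-8622279537/10000000000)| + |(509635029/1250000000)| ≤ (14 / 10 : ℝ) := by
    have h1 : |(-8622279537/10000000000)| ≤ ((863/1000) : ℝ) := abs_le.mpr ⟨by norm_num, by norm_num⟩
    have h2 : |(509635029/1250000000)| ≤ ((51/125) : ℝ) := abs_le.mpr ⟨by norm_num, by norm_num⟩
    linarith
  have ha7 : |a 7 - (1248735189/2500000000)| ≤ (3/50000) := ha 7
  have hb7 : |b 7 - (1248735189/2500000000)| ≤ (3/50000) := hb 7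
  have hd7 : |d 7 - (-451313297/625000000)| ≤ (3/50000) := hd 7
  have m7 : |(1248735189/2500000000)| + |(1248735189/2500000000)| ≤ (14 / 10 : ℝ) := by
    have h1 : |(1248735189/2500000000)| ≤ ((1/2) : ℝ) := abs_le.mpr ⟨by norm_num, by norm_num⟩
    have h2 : |(1248735189/2500000000)| ≤ ((1/2) : ℝ) := abs_le.mpr ⟨by norm_num, by norm_num⟩
    linarith
  have ha8 : |a 8 - (-449741451/10000000000)| ≤ (3/50000) := ha 8
  have hb8 : |b 8 - (-3344573063/10000000000)| ≤ (3/50000) := hb 8
  have hd8 : |d 8 - (-9409813807/10000000000)| ≤ (3/50000) := hd 8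
  have m8 : |(-449741451/10000000000)| + |(-3344573063/10000000000)| ≤ (14 / 10 : ℝ) := by
    have h1 : |(-449741451/10000000000)| ≤ ((9/200) : ℝ) := abs_le.mpr ⟨by norm_num, by norm_num⟩
    have h2 : |(-3344573063/10000000000)| ≤ ((67/200) : ℝ) := abs_le.mpr ⟨by norm_num, by norm_num⟩
    linarith
  have ha9 : |a 9 - (-1248735189/2500000000)| ≤ (3/50000) := ha 9
  have hb9 : |b 9 - (1248735189/2500000000)| ≤ (3/50000) := hb 9
  have hd9 : |d 9 - (-6903238911/10000000000)| ≤ (3/50000) := hd 9
  have m9 : |(-1248735189/2500000000)| + |(1248735189/2500000000)| ≤ (14 / 10 : ℝ) := by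
    have h1 : |(-1248735189/2500000000)| ≤ ((1/2) : ℝ) := abs_le.mpr ⟨by norm_num, by norm_num⟩
    have h2 : |(1248735189/2500000000)| ≤ ((1/2) : ℝ) := abs_le.mpr ⟨by norm_num, by norm_num⟩
    linarith
  have R : Rows (s - (449741451/10000000000))
      (a 0 - (1248735189/2500000000)) (b 0 - (-1248735189/2500000000)) (d 0 - (6903238911/10000000000))
      (a 1 - (-1947719033/5000000000)) (b 1 - (-8622279537/10000000000)) (d 1 - (3647017099/10000000000))
      (a 2 - (-3344573063/10000000000)) (b 2 - (-449741451/10000000000)) (d 2 - (9409813807/10000000000))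
      (a 3 - (1248735189/2500000000)) (b 3 - (1248735189/2500000000)) (d 3 - (451313297/625000000))
      (a 4 - (509635029/1250000000)) (b 4 - (-8622279537/10000000000)) (d 4 - (-2381055963/10000000000))
      (a 5 - (-8622279537/10000000000)) (b 5 - (-1947719033/5000000000)) (d 5 - (-3647017099/10000000000))
      (a 6 - (-8622279537/10000000000)) (b 6 - (509635029/1250000000)) (d 6 - (2381055963/10000000000))
      (a 7 - (1248735189/2500000000)) (b 7 - (1248735189/2500000000)) (d 7 - (-451313297/625000000))
      (a 8 - (-449741451/10000000000)) (b 8 - (-3344573063/10000000000)) (d 8 - (-9409813807/10000000000))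
      (a 9 - (-1248735189/2500000000)) (b 9 - (1248735189/2500000000)) (d 9 - (-6903238911/10000000000))
      := by
    constructor
    · exact (abs_le.mp hs0).2
    · exact (abs_le.mp hs0).1
    · exact (abs_le.mp ha0).2
    · exact (abs_le.mp ha0).1
    · exact (abs_le.mp hb0).2
    · exact (abs_le.mp hb0).1
    · exact (abs_le.mp hd0).2
    · exact (abs_le.mp hd0).1
    · exact (abs_le.mp ha1).2
    · exact (abs_le.mp ha1).1
    · exact (abs_le.mp hb1).2
    · exact (abs_le.mp hb1).1
    · exact (abs_le.mp hd1).2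
    · exact (abs_le.mp hd1).1
    · exact (abs_le.mp ha2).2
    · exact (abs_le.mp ha2).1
    · exact (abs_le.mp hb2).2
    · exact (abs_le.mp hb2).1
    · exact (abs_le.mp hd2).2
    · exact (abs_le.mp hd2).1
    · exact (abs_le.mp ha3).2
    · exact (abs_le.mp ha3).1
    · exact (abs_le.mp hb3).2
    · exact (abs_le.mp hb3).1
    · exact (abs_le.mp hd3).2
    · exact (abs_le.mp hd3).1
    · exact (abs_le.mp ha4).2
    · exact (abs_le.mp ha4).1
    · exact (abs_le.mp hb4).2
    · exact (abs_le.mp hb4).1
    · exact (abs_le.mp hd4).2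
    · exact (abs_le.mp hd4).1
    · exact (abs_le.mp ha5).2
    · exact (abs_le.mp ha5).1
    · exact (abs_le.mp hb5).2
    · exact (abs_le.mp hb5).1
    · exact (abs_le.mp hd5).2
    · exact (abs_le.mp hd5).1
    · exact (abs_le.mp ha6).2
    · exact (abs_le.mp ha6).1
    · exact (abs_le.mp hb6).2
    · exact (abs_le.mp hb6).1
    · exact (abs_le.mp hd6).2
    · exact (abs_le.mp hd6).1
    · exact (abs_le.mp ha7).2
    · exact (abs_le.mp ha7).1
    · exact (abs_le.mp hb7).2
    · exact (abs_le.mp hb7).1
    · exact (abs_le.mp hd7).2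
    · exact (abs_le.mp hd7).1
    · exact (abs_le.mp ha8).2
    · exact (abs_le.mp ha8).1
    · exact (abs_le.mp hb8).2
    · exact (abs_le.mp hb8).1
    · exact (abs_le.mp hd8).2
    · exact (abs_le.mp hd8).1
    · exact (abs_le.mp ha9).2
    · exact (abs_le.mp ha9).1
    · exact (abs_le.mp hb9).2
    · exact (abs_le.mp hb9).1
    · exact (abs_le.mp hd9).2
    · exact (abs_le.mp hd9).1
    · have := hp 0
      linarith
    · have := hp 3
      linarith
    · have := hp 7
      linarith
    · have := hq 3
      linarith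
    · have := hq 7
      linarith
    · have := hq 9
      linarith
    · have := contact_lin (1248735189/2500000000) (-1248735189/2500000000) (6903238911/10000000000) (-1947719033/5000000000) (-8622279537/10000000000) (3647017099/10000000000) (449741451/10000000000) (48778721/97656250) (3/50000) (a 0) (b 0) (d 0) (a 1) (b 1) (d 1) s hr0 hr1
        ha0 hb0 hd0 ha1 hb1 hd1 hs0 hS hcb (by linarith [m0, m1]) (hC 0 1 (by decide))
      linear_combination this
    · have := contact_lin (1248735189/2500000000) (-1248735189/2500000000) (6903238911/10000000000) (-3344573063/10000000000) (-449741451/10000000000) (9409813807/10000000000) (449741451/10000000000) (48778721/97656250) (3/50000) (a 0) (b 0) (d 0) (a 2) (b 2) (d 2) s hr0 hr1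
        ha0 hb0 hd0 ha2 hb2 hd2 hs0 hS hcb (by linarith [m0, m2]) (hC 0 2 (by decide))
      linear_combination this
    · have := contact_lin (1248735189/2500000000) (-1248735189/2500000000) (6903238911/10000000000) (1248735189/2500000000) (1248735189/2500000000) (451313297/625000000) (449741451/10000000000) (48778721/97656250) (3/50000) (a 0) (b 0) (d 0) (a 3) (b 3) (d 3) s hr0 hr1
        ha0 hb0 hd0 ha3 hb3 hd3 hs0 hS hcb (by linarith [m0, m3]) (hC 0 3 (by decide))
      linear_combination this
    · have := contact_lin (1248735189/2500000000) (-1248735189/2500000000) (6903238911/10000000000) (509635029/1250000000) (-8622279537/10000000000) (-2381055963/10000000000) (449741451/10000000000) (48778721/97656250) (3/50000) (a 0) (b 0) (d 0) (a 4) (b 4) (d 4) s hr0 hr1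
        ha0 hb0 hd0 ha4 hb4 hd4 hs0 hS hcb (by linarith [m0, m4]) (hC 0 4 (by decide))
      linear_combination this
    · have := contact_lin (-1947719033/5000000000) (-8622279537/10000000000) (3647017099/10000000000) (-3344573063/10000000000) (-449741451/10000000000) (9409813807/10000000000) (449741451/10000000000) (48778721/97656250) (3/50000) (a 1) (b 1) (d 1) (a 2) (b 2) (d 2) s hr0 hr1
        ha1 hb1 hd1 ha2 hb2 hd2 hs0 hS hcb (by linarith [m1, m2]) (hC 1 2 (by decide))
      linear_combination this
    · have := contact_lin (-1947719033/5000000000) (-8622279537/10000000000) (3647017099/10000000000) (509635029/1250000000) (-8622279537/10000000000) (-2381055963/10000000000) (449741451/10000000000) (48778721/97656250) (3/50000) (a 1) (b 1) (d 1) (a 4) (b 4) (d 4) s hr0 hr1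
        ha1 hb1 hd1 ha4 hb4 hd4 hs0 hS hcb (by linarith [m1, m4]) (hC 1 4 (by decide))
      linear_combination this
    · have := contact_lin (-1947719033/5000000000) (-8622279537/10000000000) (3647017099/10000000000) (-8622279537/10000000000) (-1947719033/5000000000) (-3647017099/10000000000) (449741451/10000000000) (48778721/97656250) (3/50000) (a 1) (b 1) (d 1) (a 5) (b 5) (d 5) s hr0 hr1
        ha1 hb1 hd1 ha5 hb5 hd5 hs0 hS hcb (by linarith [m1, m5]) (hC 1 5 (by decide))
      linear_combination this
    · have := contact_lin (-3344573063/10000000000) (-449741451/10000000000) (9409813807/10000000000) (1248735189/2500000000) (1248735189/2500000000) (451313297/625000000) (449741451/10000000000) (48778721/97656250) (3/50000) (a 2) (b 2) (d 2) (a 3) (b 3) (d 3) s hr0 hr1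
        ha2 hb2 hd2 ha3 hb3 hd3 hs0 hS hcb (by linarith [m2, m3]) (hC 2 3 (by decide))
      linear_combination this
    · have := contact_lin (-3344573063/10000000000) (-449741451/10000000000) (9409813807/10000000000) (-8622279537/10000000000) (509635029/1250000000) (2381055963/10000000000) (449741451/10000000000) (48778721/97656250) (3/50000) (a 2) (b 2) (d 2) (a 6) (b 6) (d 6) s hr0 hr1
        ha2 hb2 hd2 ha6 hb6 hd6 hs0 hS hcb (by linarith [m2, m6]) (hC 2 6 (by decide))
      linear_combination this
    · have := contact_lin (509635029/1250000000) (-8622279537/10000000000) (-2381055963/10000000000) (-449741451/10000000000) (-3344573063/10000000000) (-9409813807/10000000000) (449741451/10000000000) (48778721/97656250) (3/50000) (a 4) (b 4) (d 4) (a 8) (b 8) (d 8) s hr0 hr1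
        ha4 hb4 hd4 ha8 hb8 hd8 hs0 hS hcb (by linarith [m4, m8]) (hC 4 8 (by decide))
      linear_combination this
    · have := contact_lin (-8622279537/10000000000) (-1947719033/5000000000) (-3647017099/10000000000) (-8622279537/10000000000) (509635029/1250000000) (2381055963/10000000000) (449741451/10000000000) (48778721/97656250) (3/50000) (a 5) (b 5) (d 5) (a 6) (b 6) (d 6) s hr0 hr1
        ha5 hb5 hd5 ha6 hb6 hd6 hs0 hS hcb (by linarith [m5, m6]) (hC 5 6 (by decide))
      linear_combination this
    · have := contact_lin (-8622279537/10000000000) (-1947719033/5000000000) (-3647017099/10000000000) (-449741451/10000000000) (-3344573063/10000000000) (-9409813807/10000000000) (449741451/10000000000) (48778721/97656250) (3/50000) (a 5) (b 5) (d 5) (a 8) (b 8) (d 8) s hr0 hr1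
        ha5 hb5 hd5 ha8 hb8 hd8 hs0 hS hcb (by linarith [m5, m8]) (hC 5 8 (by decide))
      linear_combination this
    · have := contact_lin (-8622279537/10000000000) (-1947719033/5000000000) (-3647017099/10000000000) (-1248735189/2500000000) (1248735189/2500000000) (-6903238911/10000000000) (449741451/10000000000) (48778721/97656250) (3/50000) (a 5) (b 5) (d 5) (a 9) (b 9) (d 9) s hr0 hr1
        ha5 hb5 hd5 ha9 hb9 hd9 hs0 hS hcb (by linarith [m5, m9]) (hC 5 9 (by decide))
      linear_combination this
    · have := contact_lin (-8622279537/10000000000) (509635029/1250000000) (2381055963/10000000000) (-1248735189/2500000000) (1248735189/2500000000) (-6903238911/10000000000) (449741451/10000000000) (48778721/97656250) (3/50000) (a 6) (b 6) (d 6) (a 9) (b 9) (d 9) s hr0 hr1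
        ha6 hb6 hd6 ha9 hb9 hd9 hs0 hS hcb (by linarith [m6, m9]) (hC 6 9 (by decide))
      linear_combination this
    · have := contact_lin (1248735189/2500000000) (1248735189/2500000000) (-451313297/625000000) (-449741451/10000000000) (-3344573063/10000000000) (-9409813807/10000000000) (449741451/10000000000) (48778721/97656250) (3/50000) (a 7) (b 7) (d 7) (a 8) (b 8) (d 8) s hr0 hr1
        ha7 hb7 hd7 ha8 hb8 hd8 hs0 hS hcb (by linarith [m7, m8]) (hC 7 8 (by decide))
      linear_combination this
    · have := contact_lin (1248735189/2500000000) (1248735189/2500000000) (-451313297/625000000) (-1248735189/2500000000) (1248735189/2500000000) (-6903238911/10000000000) (449741451/10000000000) (48778721/97656250) (3/50000) (a 7) (b 7) (d 7) (a 9) (b 9) (d 9) s hr0 hr1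
        ha7 hb7 hd7 ha9 hb9 hd9 hs0 hS hcb (by linarith [m7, m9]) (hC 7 9 (by decide))
      linear_combination this
    · have := contact_lin (-449741451/10000000000) (-3344573063/10000000000) (-9409813807/10000000000) (-1248735189/2500000000) (1248735189/2500000000) (-6903238911/10000000000) (449741451/10000000000) (48778721/97656250) (3/50000) (a 8) (b 8) (d 8) (a 9) (b 9) (d 9) s hr0 hr1
        ha8 hb8 hd8 ha9 hb9 hd9 hs0 hS hcb (by linarith [m8, m9]) (hC 8 9 (by decide))
      linear_combination this
    · have := (abs_le.mp (norm_lin (1248735189/2500000000) (-1248735189/2500000000) (6903238911/10000000000) (449741451/10000000000) (3/50000) (a 0) (b 0) (d 0) s hr0 hr1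
        ha0 hb0 hd0 hs0 hS m0 (hN 0))).2
      linear_combination this
    · have := (abs_le.mp (norm_lin (1248735189/2500000000) (-1248735189/2500000000) (6903238911/10000000000) (449741451/10000000000) (3/50000) (a 0) (b 0) (d 0) s hr0 hr1
        ha0 hb0 hd0 hs0 hS m0 (hN 0))).1
      linear_combination this
    · have := (abs_le.mp (norm_lin (-1947719033/5000000000) (-8622279537/10000000000) (3647017099/10000000000) (449741451/10000000000) (3/50000) (a 1) (b 1) (d 1) s hr0 hr1
        ha1 hb1 hd1 hs0 hS m1 (hN 1))).2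
      linear_combination this
    · have := (abs_le.mp (norm_lin (-1947719033/5000000000) (-8622279537/10000000000) (3647017099/10000000000) (449741451/10000000000) (3/50000) (a 1) (b 1) (d 1) s hr0 hr1
        ha1 hb1 hd1 hs0 hS m1 (hN 1))).1
      linear_combination this
    · have := (abs_le.mp (norm_lin (-3344573063/10000000000) (-449741451/10000000000) (9409813807/10000000000) (449741451/10000000000) (3/50000) (a 2) (b 2) (d 2) s hr0 hr1
        ha2 hb2 hd2 hs0 hS m2 (hN 2))).2
      linear_combination this
    · have := (abs_le.mp (norm_lin (-3344573063/10000000000) (-449741451/10000000000) (9409813807/10000000000) (449741451/10000000000) (3/50000) (a 2) (b 2) (d 2) s hr0 hr1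
        ha2 hb2 hd2 hs0 hS m2 (hN 2))).1
      linear_combination this
    · have := (abs_le.mp (norm_lin (1248735189/2500000000) (1248735189/2500000000) (451313297/625000000) (449741451/10000000000) (3/50000) (a 3) (b 3) (d 3) s hr0 hr1
        ha3 hb3 hd3 hs0 hS m3 (hN 3))).2
      linear_combination this
    · have := (abs_le.mp (norm_lin (1248735189/2500000000) (1248735189/2500000000) (451313297/625000000) (449741451/10000000000) (3/50000) (a 3) (b 3) (d 3) s hr0 hr1
        ha3 hb3 hd3 hs0 hS m3 (hN 3))).1
      linear_combination this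
    · have := (abs_le.mp (norm_lin (509635029/1250000000) (-8622279537/10000000000) (-2381055963/10000000000) (449741451/10000000000) (3/50000) (a 4) (b 4) (d 4) s hr0 hr1
        ha4 hb4 hd4 hs0 hS m4 (hN 4))).2
      linear_combination this
    · have := (abs_le.mp (norm_lin (509635029/1250000000) (-8622279537/10000000000) (-2381055963/10000000000) (449741451/10000000000) (3/50000) (a 4) (b 4) (d 4) s hr0 hr1
        ha4 hb4 hd4 hs0 hS m4 (hN 4))).1
      linear_combination this
    · have := (abs_le.mp (norm_lin (-8622279537/10000000000) (-1947719033/5000000000) (-3647017099/10000000000) (449741451/10000000000) (3/50000) (a 5) (b 5) (d 5) s hr0 hr1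
        ha5 hb5 hd5 hs0 hS m5 (hN 5))).2
      linear_combination this
    · have := (abs_le.mp (norm_lin (-8622279537/10000000000) (-1947719033/5000000000) (-3647017099/10000000000) (449741451/10000000000) (3/50000) (a 5) (b 5) (d 5) s hr0 hr1
        ha5 hb5 hd5 hs0 hS m5 (hN 5))).1
      linear_combination this
    · have := (abs_le.mp (norm_lin (-8622279537/10000000000) (509635029/1250000000) (2381055963/10000000000) (449741451/10000000000) (3/50000) (a 6) (b 6) (d 6) s hr0 hr1
        ha6 hb6 hd6 hs0 hS m6 (hN 6))).2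
      linear_combination this
    · have := (abs_le.mp (norm_lin (-8622279537/10000000000) (509635029/1250000000) (2381055963/10000000000) (449741451/10000000000) (3/50000) (a 6) (b 6) (d 6) s hr0 hr1
        ha6 hb6 hd6 hs0 hS m6 (hN 6))).1
      linear_combination this
    · have := (abs_le.mp (norm_lin (1248735189/2500000000) (1248735189/2500000000) (-451313297/625000000) (449741451/10000000000) (3/50000) (a 7) (b 7) (d 7) s hr0 hr1
        ha7 hb7 hd7 hs0 hS m7 (hN 7))).2
      linear_combination this
    · have := (abs_le.mp (norm_lin (1248735189/2500000000) (1248735189/2500000000) (-451313297/625000000) (449741451/10000000000) (3/50000) (a 7) (b 7) (d 7) s hr0 hr1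
        ha7 hb7 hd7 hs0 hS m7 (hN 7))).1
      linear_combination this
    · have := (abs_le.mp (norm_lin (-449741451/10000000000) (-3344573063/10000000000) (-9409813807/10000000000) (449741451/10000000000) (3/50000) (a 8) (b 8) (d 8) s hr0 hr1
        ha8 hb8 hd8 hs0 hS m8 (hN 8))).2
      linear_combination this
    · have := (abs_le.mp (norm_lin (-449741451/10000000000) (-3344573063/10000000000) (-9409813807/10000000000) (449741451/10000000000) (3/50000) (a 8) (b 8) (d 8) s hr0 hr1
        ha8 hb8 hd8 hs0 hS m8 (hN 8))).1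
      linear_combination this
    · have := (abs_le.mp (norm_lin (-1248735189/2500000000) (1248735189/2500000000) (-6903238911/10000000000) (449741451/10000000000) (3/50000) (a 9) (b 9) (d 9) s hr0 hr1
        ha9 hb9 hd9 hs0 hS m9 (hN 9))).2
      linear_combination this
    · have := (abs_le.mp (norm_lin (-1248735189/2500000000) (1248735189/2500000000) (-6903238911/10000000000) (449741451/10000000000) (3/50000) (a 9) (b 9) (d 9) s hr0 hr1
        ha9 hb9 hd9 hs0 hS m9 (hN 9))).1
      linear_combination this
  have es : |s - (449741451/10000000000)| < (3/50000) := abs_lt.mpr ⟨by linarith [tl_sg R], by linarith [tu_sg R]⟩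
  have ea0 : |a 0 - (1248735189/2500000000)| < (3/50000) := abs_lt.mpr ⟨by linarith [tl_al0 R], by linarith [tu_al0 R]⟩
  have eb0 : |b 0 - (-1248735189/2500000000)| < (3/50000) := abs_lt.mpr ⟨by linarith [tl_be0 R], by linarith [tu_be0 R]⟩
  have ed0 : |d 0 - (6903238911/10000000000)| < (3/50000) := abs_lt.mpr ⟨by linarith [tl_de0 R], by linarith [tu_de0 R]⟩
  have ea1 : |a 1 - (-1947719033/5000000000)| < (3/50000) := abs_lt.mpr ⟨by linarith [tl_al1 R], by linarith [tu_al1 R]⟩
  have eb1 : |b 1 - (-8622279537/10000000000)| < (3/50000) := abs_lt.mpr ⟨by linarith [tl_be1 R], by linarith [tu_be1 R]⟩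
  have ed1 : |d 1 - (3647017099/10000000000)| < (3/50000) := abs_lt.mpr ⟨by linarith [tl_de1 R], by linarith [tu_de1 R]⟩
  have ea2 : |a 2 - (-3344573063/10000000000)| < (3/50000) := abs_lt.mpr ⟨by linarith [tl_al2 R], by linarith [tu_al2 R]⟩
  have eb2 : |b 2 - (-449741451/10000000000)| < (3/50000) := abs_lt.mpr ⟨by linarith [tl_be2 R], by linarith [tu_be2 R]⟩
  have ed2 : |d 2 - (9409813807/10000000000)| < (3/50000) := abs_lt.mpr ⟨by linarith [tl_de2 R], by linarith [tu_de2 R]⟩
  have ea3 : |a 3 - (1248735189/2500000000)| < (3/50000) := abs_lt.mpr ⟨by linarith [tl_al3 R], by linarith [tu_al3 R]⟩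
  have eb3 : |b 3 - (1248735189/2500000000)| < (3/50000) := abs_lt.mpr ⟨by linarith [tl_be3 R], by linarith [tu_be3 R]⟩
  have ed3 : |d 3 - (451313297/625000000)| < (3/50000) := abs_lt.mpr ⟨by linarith [tl_de3 R], by linarith [tu_de3 R]⟩
  have ea4 : |a 4 - (509635029/1250000000)| < (3/50000) := abs_lt.mpr ⟨by linarith [tl_al4 R], by linarith [tu_al4 R]⟩
  have eb4 : |b 4 - (-8622279537/10000000000)| < (3/50000) := abs_lt.mpr ⟨by linarith [tl_be4 R], by linarith [tu_be4 R]⟩
  have ed4 : |d 4 - (-2381055963/10000000000)| < (3/50000) := abs_lt.mpr ⟨by linarith [tl_de4 R], by linarith [tu_de4 R]⟩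
  have ea5 : |a 5 - (-8622279537/10000000000)| < (3/50000) := abs_lt.mpr ⟨by linarith [tl_al5 R], by linarith [tu_al5 R]⟩
  have eb5 : |b 5 - (-1947719033/5000000000)| < (3/50000) := abs_lt.mpr ⟨by linarith [tl_be5 R], by linarith [tu_be5 R]⟩
  have ed5 : |d 5 - (-3647017099/10000000000)| < (3/50000) := abs_lt.mpr ⟨by linarith [tl_de5 R], by linarith [tu_de5 R]⟩
  have ea6 : |a 6 - (-8622279537/10000000000)| < (3/50000) := abs_lt.mpr ⟨by linarith [tl_al6 R], by linarith [tu_al6 R]⟩
  have eb6 : |b 6 - (509635029/1250000000)| < (3/50000) := abs_lt.mpr ⟨by linarith [tl_be6 R], by linarith [tu_be6 R]⟩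
  have ed6 : |d 6 - (2381055963/10000000000)| < (3/50000) := abs_lt.mpr ⟨by linarith [tl_de6 R], by linarith [tu_de6 R]⟩
  have ea7 : |a 7 - (1248735189/2500000000)| < (3/50000) := abs_lt.mpr ⟨by linarith [tl_al7 R], by linarith [tu_al7 R]⟩
  have eb7 : |b 7 - (1248735189/2500000000)| < (3/50000) := abs_lt.mpr ⟨by linarith [tl_be7 R], by linarith [tu_be7 R]⟩
  have ed7 : |d 7 - (-451313297/625000000)| < (3/50000) := abs_lt.mpr ⟨by linarith [tl_de7 R], by linarith [tu_de7 R]⟩
  have ea8 : |a 8 - (-449741451/10000000000)| < (3/50000) := abs_lt.mpr ⟨by linarith [tl_al8 R], by linarith [tu_al8 R]⟩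
  have eb8 : |b 8 - (-3344573063/10000000000)| < (3/50000) := abs_lt.mpr ⟨by linarith [tl_be8 R], by linarith [tu_be8 R]⟩
  have ed8 : |d 8 - (-9409813807/10000000000)| < (3/50000) := abs_lt.mpr ⟨by linarith [tl_de8 R], by linarith [tu_de8 R]⟩
  have ea9 : |a 9 - (-1248735189/2500000000)| < (3/50000) := abs_lt.mpr ⟨by linarith [tl_al9 R], by linarith [tu_al9 R]⟩
  have eb9 : |b 9 - (1248735189/2500000000)| < (3/50000) := abs_lt.mpr ⟨by linarith [tl_be9 R], by linarith [tu_be9 R]⟩
  have ed9 : |d 9 - (-6903238911/10000000000)| < (3/50000) := abs_lt.mpr ⟨by linarith [tl_de9 R], by linarith [tu_de9 R]⟩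
  refine ⟨es, ?_, ?_, ?_⟩
  · intro k
    match k with
    | ⟨0, _⟩ => exact ea0
    | ⟨1, _⟩ => exact ea1
    | ⟨2, _⟩ => exact ea2
    | ⟨3, _⟩ => exact ea3
    | ⟨4, _⟩ => exact ea4
    | ⟨5, _⟩ => exact ea5
    | ⟨6, _⟩ => exact ea6
    | ⟨7, _⟩ => exact ea7
    | ⟨8, _⟩ => exact ea8
    | ⟨9, _⟩ => exact ea9
  · intro k
    match k with
    | ⟨0, _⟩ => exact eb0
    | ⟨1, _⟩ => exact eb1
    | ⟨2, _⟩ => exact eb2
    | ⟨3, _⟩ => exact eb3
    | ⟨4, _⟩ => exact eb4
    | ⟨5, _⟩ => exact eb5
    | ⟨6, _⟩ => exact eb6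
    | ⟨7, _⟩ => exact eb7
    | ⟨8, _⟩ => exact eb8
    | ⟨9, _⟩ => exact eb9
  · intro k
    match k with
    | ⟨0, _⟩ => exact ed0
    | ⟨1, _⟩ => exact ed1
    | ⟨2, _⟩ => exact ed2
    | ⟨3, _⟩ => exact ed3
    | ⟨4, _⟩ => exact ed4
    | ⟨5, _⟩ => exact ed5
    | ⟨6, _⟩ => exact ed6
    | ⟨7, _⟩ => exact ed7
    | ⟨8, _⟩ => exact ed8
    | ⟨9, _⟩ => exact ed9

end Pool.Agent.TwelveSpheres
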