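import Pool.Agent.TwelveSpheres.Witness

set_option autoImplicit false

namespace Pool.Agent.TwelveSpheres

/-- The labeled configuration space of twelve spheres of radius `r`. -/
def Conf (r : ℝ) : Set (Fin 12 → Fin 3 → ℝ) :=
  {x | (∀ i, ∑ k, (x i k) ^ 2 = (1 + r) ^ 2) ∧
    ∀ i j, i ≠ j → (2 * r) ^ 2 ≤ ∑ k, (x i k - x j k) ^ 2}

/-- Normalized inner product of the points `i`, `j`. -/
noncomputable def ip (r : ℝ) (x : Fin 12 → Fin 3 → ℝ) (i j : Fin 12) : ℝ :=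
  ∑ k, (x i k / (1 + r)) * (x j k / (1 + r))

/-- Normalized determinant of the points `0`, `1`, `i`. -/
noncomputable def dt (r : ℝ) (x : Fin 12 → Fin 3 → ℝ) (i : Fin 12) : ℝ :=
  (x 0 0 / (1 + r)) * ((x 1 1 / (1 + r)) * (x i 2 / (1 + r))
      - (x 1 2 / (1 + r)) * (x i 1 / (1 + r)))
    - (x 0 1 / (1 + r)) * ((x 1 0 / (1 + r)) * (x i 2 / (1 + r))
      - (x 1 2 / (1 + r)) * (x i 0 / (1 + r)))
    + (x 0 2 / (1 + r)) * ((x 1 0 / (1 + r)) * (x i 1 / (1 + r))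
      - (x 1 1 / (1 + r)) * (x i 0 / (1 + r)))

theorem ip_self {r : ℝ} (hr : 0 < 1 + r) {x : Fin 12 → Fin 3 → ℝ} (hx : x ∈ Conf r) (i : Fin 12) :
    ∑ k, (x i k / (1 + r)) ^ 2 = 1 := by
  have h := hx.1 i
  have : ∑ k, (x i k / (1 + r)) ^ 2 = (∑ k, (x i k) ^ 2) / (1 + r) ^ 2 := by
    rw [Finset.sum_div]
    exact Finset.sum_congr rfl fun k _ => by rw [div_pow]
  rw [this, h, div_self]
  positivity

theorem raw_ip_le {r : ℝ} {x : Fin 12 → Fin 3 → ℝ} (hx : x ∈ Conf r) {i j : Fin 12}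
    (hij : i ≠ j) : ∑ k, x i k * x j k ≤ (1 + r) ^ 2 - 2 * r ^ 2 := by
  have h := hx.2 i j hij
  have hi := hx.1 i
  have hj := hx.1 j
  simp only [Fin.sum_univ_three] at *
  nlinarith

theorem ip_le {r c : ℝ} (hr : 0 < 1 + r) (hc : (1 + r) ^ 2 - 2 * r ^ 2 ≤ c * (1 + r) ^ 2)
    {x : Fin 12 → Fin 3 → ℝ} (hx : x ∈ Conf r) {i j : Fin 12}
    (hij : i ≠ j) : ip r x i j ≤ c := by
  have h := (raw_ip_le hx hij).trans hc
  have e : ip r x i j = (∑ k, x i k * x j k) / (1 + r) ^ 2 := by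
    unfold ip
    rw [Finset.sum_div]
    exact Finset.sum_congr rfl fun k _ => by rw [div_mul_div_comm, pow_two]
  rw [e, div_le_iff₀ (by positivity)]
  exact h

theorem frame_ip {r : ℝ} (hr : 0 < 1 + r) {x : Fin 12 → Fin 3 → ℝ} (hx : x ∈ Conf r)
    (i j : Fin 12) :
    (1 - ip r x 0 1 ^ 2) * ip r x i j
      = ip r x i 0 * ip r x j 0 + ip r x i 1 * ip r x j 1
        - ip r x 0 1 * (ip r x i 0 * ip r x j 1 + ip r x j 0 * ip r x i 1)
        + dt r x i * dt r x j := by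
  have h0 := ip_self hr hx 0
  have h1 := ip_self hr hx 1
  have := frame_identity (fun k => x 0 k / (1 + r)) (fun k => x 1 k / (1 + r))
    (fun k => x i k / (1 + r)) (fun k => x j k / (1 + r))
  rw [h0, h1] at this
  unfold ip dt
  linear_combination this

theorem ip_sq_le {r : ℝ} (hr : 0 < 1 + r) {x : Fin 12 → Fin 3 → ℝ} (hx : x ∈ Conf r) :
    0 ≤ 1 - ip r x 0 1 ^ 2 := by
  have h0 := ip_self hr hx 0
  have h1 := ip_self hr hx 1
  have := Finset.sum_mul_sq_le_sq_mul_sq Finset.univ (fun k => x 0 k / (1 + r))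
    (fun k => x 1 k / (1 + r))
  rw [h0, h1] at this
  unfold ip
  linarith

/-- The closed neighbourhood. -/
def Cl (r : ℝ) : Set (Fin 12 → Fin 3 → ℝ) :=
  {x | |ip r x 0 1 - sB| ≤ 3 / 50000 ∧ (∀ k : Fin 10, |ip r x k.succ.succ 0 - aB k| ≤ 3 / 50000)
    ∧ (∀ k : Fin 10, |ip r x k.succ.succ 1 - bB k| ≤ 3 / 50000)
    ∧ (∀ k : Fin 10, |dt r x k.succ.succ - dB k| ≤ 3 / 50000)}

/-- The open neighbourhood. -/
def Op (r : ℝ) : Set (Fin 12 → Fin 3 → ℝ) :=
  {x | |ip r x 0 1 - sB| < 3 / 50000 ∧ (∀ k : Fin 10, |ip r x k.succ.succ 0 - aB k| < 3 / 50000)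
    ∧ (∀ k : Fin 10, |ip r x k.succ.succ 1 - bB k| < 3 / 50000)
    ∧ (∀ k : Fin 10, |dt r x k.succ.succ - dB k| < 3 / 50000)}

theorem continuous_ip (r : ℝ) (i j : Fin 12) : Continuous fun x => ip r x i j := by
  unfold ip
  fun_prop

theorem continuous_dt (r : ℝ) (i : Fin 12) : Continuous fun x => dt r x i := by
  unfold dt
  fun_prop

theorem isClosed_Cl (r : ℝ) : IsClosed (Cl r) := by
  have h1 : ∀ (f : (Fin 12 → Fin 3 → ℝ) → ℝ) (c : ℝ), Continuous f →
      IsClosed {x | |f x - c| ≤ 3 / 50000} := fun f c hf =>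
    isClosed_le (continuous_abs.comp (hf.sub continuous_const)) continuous_const
  have e : Cl r = {x | |ip r x 0 1 - sB| ≤ 3 / 50000}
      ∩ ((⋂ k : Fin 10, {x | |ip r x k.succ.succ 0 - aB k| ≤ 3 / 50000})
      ∩ ((⋂ k : Fin 10, {x | |ip r x k.succ.succ 1 - bB k| ≤ 3 / 50000})
      ∩ (⋂ k : Fin 10, {x | |dt r x k.succ.succ - dB k| ≤ 3 / 50000}))) := by
    ext x
    simp only [Cl, Set.mem_ofPred_eq, Set.mem_inter_iff, Set.mem_iInter]
  rw [e]
  refine (h1 _ _ (continuous_ip r 0 1)).inter (IsClosed.inter ?_ (IsClosed.inter ?_ ?_))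
  · exact isClosed_iInter fun k => h1 _ _ (continuous_ip r _ 0)
  · exact isClosed_iInter fun k => h1 _ _ (continuous_ip r _ 1)
  · exact isClosed_iInter fun k => h1 _ _ (continuous_dt r _)

theorem isOpen_Op (r : ℝ) : IsOpen (Op r) := by
  have h1 : ∀ (f : (Fin 12 → Fin 3 → ℝ) → ℝ) (c : ℝ), Continuous f →
      IsOpen {x | |f x - c| < 3 / 50000} := fun f c hf =>
    isOpen_lt (continuous_abs.comp (hf.sub continuous_const)) continuous_const
  have e : Op r = {x | |ip r x 0 1 - sB| < 3 / 50000}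
      ∩ ((⋂ k : Fin 10, {x | |ip r x k.succ.succ 0 - aB k| < 3 / 50000})
      ∩ ((⋂ k : Fin 10, {x | |ip r x k.succ.succ 1 - bB k| < 3 / 50000})
      ∩ (⋂ k : Fin 10, {x | |dt r x k.succ.succ - dB k| < 3 / 50000}))) := by
    ext x
    simp only [Op, Set.mem_ofPred_eq, Set.mem_inter_iff, Set.mem_iInter]
  rw [e]
  refine (h1 _ _ (continuous_ip r 0 1)).inter (IsOpen.inter ?_ (IsOpen.inter ?_ ?_))
  · exact isOpen_iInter_of_finite fun k => h1 _ _ (continuous_ip r _ 0)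
  · exact isOpen_iInter_of_finite fun k => h1 _ _ (continuous_ip r _ 1)
  · exact isOpen_iInter_of_finite fun k => h1 _ _ (continuous_dt r _)

theorem Cl_inter_Conf {r : ℝ} (hr : 0 < 1 + r)
    (hc : (1 + r) ^ 2 - 2 * r ^ 2 ≤ (48778721 / 97656250) * (1 + r) ^ 2)
    {x : Fin 12 → Fin 3 → ℝ} (hx : x ∈ Conf r) (hcl : x ∈ Cl r) : x ∈ Op r := by
  obtain ⟨h1, h2, h3, h4⟩ := hcl
  have hss : ∀ k : Fin 10, k.succ.succ ≠ (0 : Fin 12) := fun k => Fin.succ_ne_zero _
  have hs1 : ∀ k : Fin 10, k.succ.succ ≠ (1 : Fin 12) := by decide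
  have key := local_rigid (ip r x 0 1) (fun k => ip r x k.succ.succ 0)
    (fun k => ip r x k.succ.succ 1) (fun k => dt r x k.succ.succ) h1 h2 h3 h4
    (by
      intro k
      have e := frame_ip hr hx k.succ.succ k.succ.succ
      have e1 : ip r x k.succ.succ k.succ.succ = 1 := by
        have h := ip_self hr hx k.succ.succ
        unfold ip
        refine Eq.trans ?_ h
        exact Finset.sum_congr rfl fun m _ => (pow_two _).symm
      rw [e1] at e
      linear_combination -e)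
    (by
      intro k l hkl
      have e := frame_ip hr hx k.succ.succ l.succ.succ
      have hne : k.succ.succ ≠ l.succ.succ := fun h =>
        hkl (Fin.succ_injective _ (Fin.succ_injective _ h))
      have e2 := ip_le hr hc hx hne
      have e3 := ip_sq_le hr hx
      have := mul_le_mul_of_nonneg_left e2 e3
      linarith)
    (fun k => ip_le hr hc hx (hss k))
    (fun k => ip_le hr hc hx (hs1 k))
  exact ⟨key.1, key.2.1, key.2.2.1, key.2.2.2⟩

/-- The witness configuration. -/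
noncomputable def wit (r : ℝ) : Fin 12 → Fin 3 → ℝ :=
  fun i k => (1 + r) * ((wn i k : ℝ) / (wm i : ℝ))

theorem wm_pos_real (i : Fin 12) : (0 : ℝ) < (wm i : ℝ) := by exact_mod_cast wm_pos i

theorem wit_norm (i : Fin 12) : ∑ k, ((wn i k : ℝ) / (wm i : ℝ)) ^ 2 = 1 := by
  have h : ((wn i 0 : ℝ)) ^ 2 + (wn i 1 : ℝ) ^ 2 + (wn i 2 : ℝ) ^ 2 = (wm i : ℝ) ^ 2 := by
    exact_mod_cast wn_norm i
  have hp := wm_pos_real i
  rw [Fin.sum_univ_three, div_pow, div_pow, div_pow, ← add_div, ← add_div, h, div_self]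
  positivity

theorem wit_pair (i j : Fin 12) (hij : i ≠ j) :
    ∑ k, ((wn i k : ℝ) / (wm i : ℝ)) * ((wn j k : ℝ) / (wm j : ℝ)) ≤ (4994940780 / 10000000000) := by
  have h : ((wn i 0 : ℝ) * wn j 0 + wn i 1 * wn j 1 + wn i 2 * wn j 2) * 10000000000
      ≤ 4994940780 * ((wm i : ℝ) * wm j) := by
    exact_mod_cast wn_pair i j hij
  have hi := wm_pos_real i
  have hj := wm_pos_real j
  rw [Fin.sum_univ_three, div_mul_div_comm, div_mul_div_comm, div_mul_div_comm, ← add_div,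
    ← add_div, div_le_iff₀ (by positivity)]
  linarith

theorem wit_mem {r : ℝ}
    (hc : (4994940780 / 10000000000) * (1 + r) ^ 2 ≤ (1 + r) ^ 2 - 2 * r ^ 2) : wit r ∈ Conf r := by
  refine ⟨fun i => ?_, fun i j hij => ?_⟩
  · have h := wit_norm i
    have : ∑ k, (wit r i k) ^ 2 = (1 + r) ^ 2 * ∑ k, ((wn i k : ℝ) / (wm i : ℝ)) ^ 2 := by
      rw [Finset.mul_sum]
      exact Finset.sum_congr rfl fun k _ => by unfold wit; ring
    rw [this, h, mul_one]
  · have hi := wit_norm i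
    have hj := wit_norm j
    have hp := wit_pair i j hij
    have : ∑ k, (wit r i k - wit r j k) ^ 2 = (1 + r) ^ 2 * (∑ k, ((wn i k : ℝ) / (wm i : ℝ)) ^ 2
        + ∑ k, ((wn j k : ℝ) / (wm j : ℝ)) ^ 2
        - 2 * ∑ k, ((wn i k : ℝ) / (wm i : ℝ)) * ((wn j k : ℝ) / (wm j : ℝ))) := by
      simp only [Fin.sum_univ_three, wit]
      ring
    rw [this, hi, hj]
    have h2 : 0 ≤ (1 + r) ^ 2 := sq_nonneg _
    have := mul_le_mul_of_nonneg_left hp h2
    nlinarith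

theorem wit_div {r : ℝ} (hr : 0 < 1 + r) (i : Fin 12) (k : Fin 3) :
    wit r i k / (1 + r) = (wn i k : ℝ) / (wm i : ℝ) := by
  unfold wit
  rw [mul_div_assoc, mul_comm, div_mul_cancel₀ _ hr.ne']

theorem near_aux {p q n : ℤ} (hq : 0 < q) (h : |p * 10000000000 - n * q| ≤ 10000 * q) :
    |(p : ℝ) / q - (n : ℝ) / 10000000000| < 3 / 50000 := by
  have hq' : (0 : ℝ) < q := by exact_mod_cast hq
  have h' : |(p : ℝ) * 10000000000 - n * q| ≤ 10000 * q := by exact_mod_cast h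
  have e : (p : ℝ) / q - (n : ℝ) / 10000000000 = (p * 10000000000 - n * q) / (q * 10000000000) := by
    field_simp
  rw [e, abs_div, abs_of_pos (show (0 : ℝ) < q * 10000000000 by positivity),
    div_lt_iff₀ (by positivity)]
  nlinarith

theorem wit_Op {r : ℝ} (hr : 0 < 1 + r) : wit r ∈ Op r := by
  have hip : ∀ i j, ip r (wit r) i j
      = ((wn i 0 * wn j 0 + wn i 1 * wn j 1 + wn i 2 * wn j 2 : ℤ) : ℝ) / ((wm i * wm j : ℤ) : ℝ) := by
    intro i j
    have hi := (wm_pos_real i).ne'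
    have hj := (wm_pos_real j).ne'
    unfold ip
    simp only [wit_div hr, Fin.sum_univ_three]
    push_cast
    field_simp
  have hdt : ∀ i, dt r (wit r) i
      = ((wn 0 0 * (wn 1 1 * wn i 2 - wn 1 2 * wn i 1)
      - wn 0 1 * (wn 1 0 * wn i 2 - wn 1 2 * wn i 0)
      + wn 0 2 * (wn 1 0 * wn i 1 - wn 1 1 * wn i 0) : ℤ) : ℝ)
        / ((wm 0 * wm 1 * wm i : ℤ) : ℝ) := by
    intro i
    have h0 := (wm_pos_real 0).ne'
    have h1 := (wm_pos_real 1).ne'
    have hi := (wm_pos_real i).ne'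
    unfold dt
    simp only [wit_div hr]
    push_cast
    field_simp
  refine ⟨?_, fun k => ?_, fun k => ?_, fun k => ?_⟩
  · rw [hip, sB_eq]
    exact near_aux (mul_pos (wm_pos _) (wm_pos _)) w_s
  · rw [hip, aB_eq]
    exact near_aux (mul_pos (wm_pos _) (wm_pos _)) (w_a k)
  · rw [hip, bB_eq]
    exact near_aux (mul_pos (wm_pos _) (wm_pos _)) (w_b k)
  · rw [hdt, dB_eq]
    exact near_aux (mul_pos (mul_pos (wm_pos _) (wm_pos _)) (wm_pos _)) (w_d k)

theorem component_subset {r : ℝ} (hr : 0 < 1 + r)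
    (hc : (1 + r) ^ 2 - 2 * r ^ 2 ≤ (48778721 / 97656250) * (1 + r) ^ 2)
    (hc' : (4994940780 / 10000000000) * (1 + r) ^ 2 ≤ (1 + r) ^ 2 - 2 * r ^ 2) :
    connectedComponentIn (Conf r) (wit r) ⊆ Op r := by
  have hm := wit_mem hc'
  refine (isPreconnected_connectedComponentIn).subset_left_of_subset_union (isOpen_Op r)
    (isClosed_Cl r).isOpen_compl ?_ ?_ ?_
  · rw [Set.disjoint_left]
    intro x hx hx'
    apply hx'
    exact ⟨hx.1.le, fun k => (hx.2.1 k).le, fun k => (hx.2.2.1 k).le, fun k => (hx.2.2.2 k).le⟩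
  · intro x hx
    have hxc := connectedComponentIn_subset _ _ hx
    by_cases h : x ∈ Cl r
    · exact Or.inl (Cl_inter_Conf hr hc hxc h)
    · exact Or.inr h
  · exact ⟨wit r, mem_connectedComponentIn hm, wit_Op hr⟩

end Pool.Agent.TwelveSpheres
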